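import Mathlib
import Pool.Agent.Helper61.DR.Core

/-!
# Diffusive rigidity with an exponent that depends on the character

The rate is allowed to depend on the character: the proof only uses finitely many characters.
-/

set_option autoImplicit false

open MeasureTheory Finset Filter

namespace Pool.Agent.Helper87.SC

lemma summable_gamma_mono {B : ℝ} (hB : 0 < B) {γ γ' : ℝ} (h1 : 1 ≤ γ) (h : γ ≤ γ') {f : ℕ → ℝ}
    (hf : ∀ q, 0 ≤ f q) (hS : Summable fun q : ℕ => (B ^ q / (q : ℝ) ^ γ) * f q) :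
    Summable fun q : ℕ => (B ^ q / (q : ℝ) ^ γ') * f q := by
  refine Summable.of_nonneg_of_le (fun q => ?_) (fun q => ?_) hS
  · exact mul_nonneg (div_nonneg (by positivity) (by positivity)) (hf q)
  · rcases Nat.eq_zero_or_pos q with rfl | hq
    · have e1 : ((0 : ℕ) : ℝ) ^ γ' = 0 := by
        rw [Nat.cast_zero]; exact Real.zero_rpow (by linarith)
      have e2 : ((0 : ℕ) : ℝ) ^ γ = 0 := by
        rw [Nat.cast_zero]; exact Real.zero_rpow (by linarith)
      rw [e1, e2]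
    · have hq1 : (1 : ℝ) ≤ q := by exact_mod_cast hq
      refine mul_le_mul_of_nonneg_right ?_ (hf q)
      refine div_le_div_of_nonneg_left (by positivity) (by positivity) ?_
      exact Real.rpow_le_rpow_of_exponent_le hq1 h

lemma exists_gamma {B : ℝ} (hB : 0 < B) (S : Finset ℕ) (f : ℕ → ℝ → ℕ → ℝ)
    (hf : ∀ m η q, 0 ≤ f m η q)
    (hW : ∀ m ∈ S, ∃ γ : ℝ, 1 ≤ γ ∧ γ < 3 / 2 ∧ ∀ η : ℝ, 0 < η →
      Summable fun q : ℕ => (B ^ q / (q : ℝ) ^ γ) * f m η q) :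
    ∃ γ : ℝ, 1 ≤ γ ∧ γ < 3 / 2 ∧ ∀ m ∈ S, ∀ η : ℝ, 0 < η →
      Summable fun q : ℕ => (B ^ q / (q : ℝ) ^ γ) * f m η q := by
  classical
  induction S using Finset.induction_on with
  | empty => exact ⟨1, le_rfl, by norm_num, fun m hm => by simp at hm⟩
  | insert a S ha ih =>
    obtain ⟨γ, h1, h2, h3⟩ := ih fun m hm => hW m (Finset.mem_insert_of_mem hm)
    obtain ⟨γ', h1', h2', h3'⟩ := hW a (Finset.mem_insert_self a S)
    refine ⟨max γ γ', h1.trans (le_max_left _ _), max_lt h2 h2', fun m hm η hη => ?_⟩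
    rcases Finset.mem_insert.mp hm with rfl | hm
    · exact summable_gamma_mono hB h1' (le_max_right _ _) (fun q => hf m η q) (h3' η hη)
    · exact summable_gamma_mono hB h1 (le_max_left _ _) (fun q => hf m η q) (h3 m hm η hη)

section three
open Pool.Agent.Helper61.FR (Inv23 dev avg cnt nbhd pr ent typical exists_thin exists_tail
  profile_pr false_of_arcs measurableSet_dev fract_mem_dev)
open Pool.Agent.Helper17.KW

/-- **Diffusive rigidity.**  The rate may depend on the character. -/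
theorem core_tail_per {μ : Measure ℝ} (h : Inv23 μ)
    (h0 : ∀ x, μ {x} = 0)
    (hWp : ∀ m : ℕ, 1 ≤ m → ∃ γ : ℝ, 1 ≤ γ ∧ γ < 3 / 2 ∧ ∀ η : ℝ, 0 < η →
      Summable fun q : ℕ => (2 ^ q / (q : ℝ) ^ γ) * μ.real (dev μ 1 (2 ^ q) m η))
    (m : ℕ) (hm : 1 ≤ m) : ∫ y, Pool.Agent.Helper61.FR.e (m * y) ∂μ = 0 := by
  by_contra hφ
  have := h.prob
  -- convergence in measure
  have hdev : ∀ m : ℕ, 1 ≤ m → ∀ η : ℝ, 0 < η →
      Tendsto (fun q : ℕ => μ.real (dev μ 1 (2 ^ q) m η)) atTop (nhds 0) := by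
    intro m hm η hη
    obtain ⟨γ, hγ1, hγ2, hW⟩ := hWp m hm
    have h1 := ((hW η hη).mul_left 2).tendsto_atTop_zero
    refine squeeze_zero' (Eventually.of_forall fun q => measureReal_nonneg) ?_ h1
    filter_upwards [eventually_ge_atTop 1] with q hq
    have h3 : (1 : ℝ) ≤ 2 * (2 ^ q / (q : ℝ) ^ γ) := by
      have h8 : (0 : ℝ) < (q : ℝ) ^ γ :=
        Real.rpow_pos_of_pos (by exact_mod_cast hq) _
      rw [mul_div_assoc', le_div_iff₀ h8, one_mul]
      exact rpow_le_two_pow' (by linarith) hq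
    have h4 : 0 ≤ μ.real (dev μ 1 (2 ^ q) m η) := measureReal_nonneg
    rw [← mul_assoc]
    nlinarith
  obtain ⟨s, hs, hent⟩ := exists_small_entropy_tendsto h (fun _ => 1) (fun q hq => ⟨le_rfl, by omega⟩)
    m hm hφ (hdev m hm _ (by have := norm_pos_iff.mpr hφ; positivity))
  obtain ⟨U, hUr, hUc, hUm⟩ := exists_thin (profile_pr h) s hs hent
  obtain ⟨S, η, hη, hS1, hSt⟩ := typical h (20 * s) U hUm
  obtain ⟨γ, hγ1, hγ2, hW⟩ := exists_gamma (B := 2) (by norm_num) S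
    (fun m η q => μ.real (dev μ 1 (2 ^ q) m η)) (fun _ _ _ => measureReal_nonneg)
    (fun m hm => hWp m (hS1 m hm))
  set r := 20 * s with hr
  obtain ⟨q₁, n₁, hn₁, hwin⟩ := window_gen γ hγ2 r U hUc
  -- the typical points
  set G : ℕ → Set ℝ := fun q => {x | ∀ m ∈ S, x ∉ dev μ 1 (2 ^ q) m η} with hG
  have hGc : ∀ q, (G q)ᶜ = ⋃ m ∈ S, dev μ 1 (2 ^ q) m η := by
    intro q; ext x; simp [hG]
  have hGm : ∀ q, MeasurableSet (G q) := by
    intro q
    rw [← MeasurableSet.compl_iff, hGc]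
    exact Finset.measurableSet_biUnion _ fun m _ => measurableSet_dev μ _ _ _ _
  have hGp : ∀ q x, Int.fract x ∈ G q ↔ x ∈ G q := by
    intro q x
    show (∀ m ∈ S, _) ↔ (∀ m ∈ S, _)
    refine forall₂_congr fun m _ => not_congr (fract_mem_dev μ _ _ _ _ _)
  -- the tail
  set F : ℕ → ℝ := fun q => ∑ m ∈ S, (2 ^ q / (q : ℝ) ^ γ) *
    μ.real (dev μ 1 (2 ^ q) m η) with hF
  have hFs : Summable F := summable_sum fun m hm => hW m hm η hη
  have hF0 : ∀ q, 0 ≤ F q := fun q => sum_nonneg fun m _ => by positivity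
  obtain ⟨N, hN⟩ := exists_tail hFs hF0 (1 / 256) (by norm_num)
  set q₀ : ℕ := N + q₁ + 4 * n₁ + 1 with hq₀
  have hc := stage3W h q₀ n₁ (wing γ) hn₁ (wing_mono (by linarith)) (fun q hq => by
      have := self_le_wing hγ1 (q := q) (by omega)
      omega) (fun q _ => wing_le_two_pow hγ1 (by linarith) q) G hGm hGp ?_ ?_
  · exact false_of_arcs h0 hc
  · intro q hq n' d τ x h1 h2 hd hτ hx hx'
    have e1 : (n' : ℝ) ≤ (q : ℝ) ^ γ :=
      (by exact_mod_cast h2 : (n' : ℝ) ≤ wing γ q).trans (wing_le γ q)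
    have t1 := hSt 1 (2 ^ q) le_rfl Nat.one_le_two_pow x hx
    have t2 := hSt 1 (2 ^ q) le_rfl Nat.one_le_two_pow _ hx'
    rw [one_mul] at t1 t2
    exact hwin q (by omega) n' d τ x h1 e1 hd hτ t1 t2
  · intro Q
    have key : ∀ q ∈ Ico q₀ Q, (2 ^ q / wing γ q : ℝ) * μ.real (G q)ᶜ ≤ 2 * F q := by
      intro q hq
      have hq1 : 1 ≤ q := by
        have := (mem_Ico.1 hq).1
        omega
      have h1 : μ.real (G q)ᶜ ≤ ∑ m ∈ S, μ.real (dev μ 1 (2 ^ q) m η) := by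
        rw [hGc]
        exact measureReal_biUnion_finset_le _ _
      have h2 : (2 ^ q / wing γ q : ℝ) ≤ 2 * (2 ^ q / (q : ℝ) ^ γ) := by
        have h3 : (0 : ℝ) < (q : ℝ) ^ γ :=
          Real.rpow_pos_of_pos (by exact_mod_cast hq1) _
        have h4 : (q : ℝ) ^ γ ≤ 2 * wing γ q := le_wing (by linarith) hq1
        have h5 : (0 : ℝ) < wing γ q := by
          have := self_le_wing hγ1 hq1
          exact_mod_cast (by omega : 0 < wing γ q)
        rw [mul_div_assoc', div_le_div_iff₀ h5 h3]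
        have h6 : (0 : ℝ) ≤ 2 ^ q := by positivity
        nlinarith
      have h7 : 0 ≤ (2 ^ q / wing γ q : ℝ) := by positivity
      have h8 : 0 ≤ μ.real (G q)ᶜ := measureReal_nonneg
      have h9 : 0 ≤ ∑ m ∈ S, μ.real (dev μ 1 (2 ^ q) m η) :=
        sum_nonneg fun m _ => measureReal_nonneg
      calc (2 ^ q / wing γ q : ℝ) * μ.real (G q)ᶜ
          ≤ (2 * (2 ^ q / (q : ℝ) ^ γ)) * ∑ m ∈ S, μ.real (dev μ 1 (2 ^ q) m η) :=
            mul_le_mul h2 h1 h8 (h7.trans h2)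
        _ = 2 * F q := by
            rw [hF]
            simp only
            rw [← mul_sum]
            ring
    calc ∑ q ∈ Ico q₀ Q, (2 ^ q / wing γ q : ℝ) * μ.real (G q)ᶜ ≤ ∑ q ∈ Ico q₀ Q, 2 * F q :=
          sum_le_sum key
      _ = 2 * ∑ q ∈ Ico q₀ Q, F q := by rw [mul_sum]
      _ ≤ 2 * (1 / 256) := by
          have := hN q₀ (by omega) Q
          linarith
      _ = 1 / 128 := by norm_num

end three

section two
open Pool.Agent.Helper61.FR
open Pool.Agent.Helper88.MR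
open Pool.Agent.Helper17.KW (wing wing_mono wing_le le_wing self_le_wing
  wing_le_two_pow)

/-- **Diffusive rigidity.**  The rate may depend on the character. -/
theorem core_tail_per3 {μ : Measure ℝ} (h : Inv23 μ)
    (h0 : ∀ x, μ {x} = 0)
    (hWp : ∀ m : ℕ, 1 ≤ m → ∃ γ : ℝ, 1 ≤ γ ∧ γ < 3 / 2 ∧ ∀ η : ℝ, 0 < η →
      Summable fun q : ℕ => (3 ^ q / (q : ℝ) ^ γ) * μ.real (dev μ (3 ^ q) 1 m η))
    (m : ℕ) (hm : 1 ≤ m) : ∫ y, e (m * y) ∂μ = 0 := by
  by_contra hφ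
  have := h.prob
  have h32 : ∀ q : ℕ, (2 : ℝ) ^ q ≤ 3 ^ q := fun q =>
    pow_le_pow_left₀ (by norm_num) (by norm_num) q
  -- convergence in measure
  have hdev : ∀ m : ℕ, 1 ≤ m → ∀ η : ℝ, 0 < η →
      Tendsto (fun q : ℕ => μ.real (dev μ (3 ^ q) 1 m η)) atTop (nhds 0) := by
    intro m hm η hη
    obtain ⟨γ, hγ1, hγ2, hW⟩ := hWp m hm
    have h1 := ((hW η hη).mul_left 2).tendsto_atTop_zero
    refine squeeze_zero' (Eventually.of_forall fun q => measureReal_nonneg) ?_ h1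
    filter_upwards [eventually_ge_atTop 1] with q hq
    have h3 : (1 : ℝ) ≤ 2 * (3 ^ q / (q : ℝ) ^ γ) := by
      have h8 : (0 : ℝ) < (q : ℝ) ^ γ :=
        Real.rpow_pos_of_pos (by exact_mod_cast hq) _
      rw [mul_div_assoc', le_div_iff₀ h8, one_mul]
      refine (Pool.Agent.Helper17.KW.rpow_le_two_pow' (by linarith) hq).trans ?_
      have := h32 q
      linarith
    have h4 : 0 ≤ μ.real (dev μ (3 ^ q) 1 m η) := measureReal_nonneg
    rw [← mul_assoc]
    nlinarith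
  obtain ⟨s, hs, hent⟩ := exists_small_entropy3 h m hm hφ
    (hdev m hm _ (by have := norm_pos_iff.mpr hφ; positivity))
  obtain ⟨U, hUr, hUc, hUm⟩ := exists_thin (profile_pr h) s hs hent
  obtain ⟨S, η, hη, hS1, hSt⟩ := typical h (20 * s) U hUm
  obtain ⟨γ, hγ1, hγ2, hW⟩ := exists_gamma (B := 3) (by norm_num) S
    (fun m η q => μ.real (dev μ (3 ^ q) 1 m η)) (fun _ _ _ => measureReal_nonneg)
    (fun m hm => hWp m (hS1 m hm))
  set r := 20 * s with hr
  obtain ⟨q₁, n₁, hn₁, hwin⟩ := window_gen3 γ hγ2 r U hUc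
  -- the typical points
  set G : ℕ → Set ℝ := fun q => {x | ∀ m ∈ S, x ∉ dev μ (3 ^ q) 1 m η} with hG
  have hGc : ∀ q, (G q)ᶜ = ⋃ m ∈ S, dev μ (3 ^ q) 1 m η := by
    intro q; ext x; simp [hG]
  have hGm : ∀ q, MeasurableSet (G q) := by
    intro q
    rw [← MeasurableSet.compl_iff, hGc]
    exact Finset.measurableSet_biUnion _ fun m _ => measurableSet_dev μ _ _ _ _
  have hGp : ∀ q x, Int.fract x ∈ G q ↔ x ∈ G q := by
    intro q x
    show (∀ m ∈ S, _) ↔ (∀ m ∈ S, _)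
    refine forall₂_congr fun m _ => not_congr (fract_mem_dev μ _ _ _ _ _)
  -- the tail
  set F : ℕ → ℝ := fun q => ∑ m ∈ S, (3 ^ q / (q : ℝ) ^ γ) *
    μ.real (dev μ (3 ^ q) 1 m η) with hF
  have hFs : Summable F := summable_sum fun m hm => hW m hm η hη
  have hF0 : ∀ q, 0 ≤ F q := fun q => sum_nonneg fun m _ => by positivity
  obtain ⟨N, hN⟩ := exists_tail hFs hF0 (1 / 512) (by norm_num)
  set q₀ : ℕ := N + q₁ + 4 * n₁ + 2 with hq₀
  have h3q : ∀ q : ℕ, 1 ≤ 3 ^ q := fun q => Nat.one_le_pow _ _ (by norm_num)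
  have hc := stage3W3 h q₀ n₁ (wing γ) hn₁ (wing_mono (by linarith)) (fun q hq => by
      have := self_le_wing hγ1 (q := q) (by omega)
      omega) (fun q hq => wing_le_three_pow hγ1 (by linarith) (by omega)) G hGm hGp ?_ ?_
  · exact false_of_arcs h0 hc
  · intro q hq n' d τ x h1 h2 hd hτ hx hx'
    have e1 : (n' : ℝ) ≤ (q : ℝ) ^ γ :=
      (by exact_mod_cast h2 : (n' : ℝ) ≤ wing γ q).trans (wing_le γ q)
    have t1 := hSt (3 ^ q) 1 (h3q q) le_rfl x hx
    have t2 := hSt (3 ^ q) 1 (h3q q) le_rfl _ hx'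
    rw [mul_one] at t1 t2
    exact hwin q (by omega) n' d τ x h1 e1 hd hτ t1 t2
  · intro Q
    have key : ∀ q ∈ Ico q₀ Q, (3 ^ q / wing γ q : ℝ) * μ.real (G q)ᶜ ≤ 2 * F q := by
      intro q hq
      have hq1 : 1 ≤ q := by
        have := (mem_Ico.1 hq).1
        omega
      have h1 : μ.real (G q)ᶜ ≤ ∑ m ∈ S, μ.real (dev μ (3 ^ q) 1 m η) := by
        rw [hGc]
        exact measureReal_biUnion_finset_le _ _
      have h2 : (3 ^ q / wing γ q : ℝ) ≤ 2 * (3 ^ q / (q : ℝ) ^ γ) := by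
        have h3 : (0 : ℝ) < (q : ℝ) ^ γ :=
          Real.rpow_pos_of_pos (by exact_mod_cast hq1) _
        have h4 : (q : ℝ) ^ γ ≤ 2 * wing γ q := le_wing (by linarith) hq1
        have h5 : (0 : ℝ) < wing γ q := by
          have := self_le_wing hγ1 hq1
          exact_mod_cast (by omega : 0 < wing γ q)
        rw [mul_div_assoc', div_le_div_iff₀ h5 h3]
        have h6 : (0 : ℝ) ≤ 3 ^ q := by positivity
        nlinarith
      have h7 : 0 ≤ (3 ^ q / wing γ q : ℝ) := by positivity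
      have h8 : 0 ≤ μ.real (G q)ᶜ := measureReal_nonneg
      have h9 : 0 ≤ ∑ m ∈ S, μ.real (dev μ (3 ^ q) 1 m η) :=
        sum_nonneg fun m _ => measureReal_nonneg
      calc (3 ^ q / wing γ q : ℝ) * μ.real (G q)ᶜ
          ≤ (2 * (3 ^ q / (q : ℝ) ^ γ)) * ∑ m ∈ S, μ.real (dev μ (3 ^ q) 1 m η) :=
            mul_le_mul h2 h1 h8 (h7.trans h2)
        _ = 2 * F q := by
            rw [hF]
            simp only
            rw [← mul_sum]
            ring
    calc ∑ q ∈ Ico q₀ Q, (3 ^ q / wing γ q : ℝ) * μ.real (G q)ᶜ ≤ ∑ q ∈ Ico q₀ Q, 2 * F q :=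
          sum_le_sum key
      _ = 2 * ∑ q ∈ Ico q₀ Q, F q := by rw [mul_sum]
      _ ≤ 2 * (1 / 512) := by
          have := hN q₀ (by omega) Q
          linarith
      _ = 1 / 256 := by norm_num

end two

section cesaro
open Pool.Agent.Helper61.FR Pool.Agent.Helper61.DR

/-- Cesàro sums of the real parts of the correlations bounded above by a power `< 1 / 2` of the
logarithm; the power may depend on the character. -/
theorem cf_eq_zero_of_cesaro_per {μ : Measure ℝ} (h : Inv23 μ) (h0 : ∀ x, μ {x} = 0) (g : ℕ)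
    (hg : g = 2 ∨ g = 3)
    (hS : ∀ m : ℕ, 1 ≤ m → ∃ θ : ℝ, θ < 1 / 2 ∧ ∃ C : ℝ, ∀ N : ℕ, 1 ≤ N →
      ∑ b ∈ range N, (1 - (b : ℝ) / N) * (cc μ g m b).re ≤ C * Real.log (N + 1) ^ θ)
    (m : ℕ) (hm : 1 ≤ m) : cf μ m = 0 := by
  have hS' : ∀ m : ℕ, 1 ≤ m → ∃ θ : ℝ, 0 ≤ θ ∧ θ < 1 / 2 ∧ ∃ C : ℝ, ∀ N : ℕ, 1 ≤ N →
      ∑ b ∈ range N, (1 - (b : ℝ) / N) * (cc μ g m b).re ≤ C * Real.log (N + 1) ^ θ := by
    intro m hm
    obtain ⟨θ, hθ, C, hC⟩ := hS m hm
    refine ⟨max θ 0, le_max_right _ _, max_lt hθ (by norm_num),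
      |C| * 2 ^ (max θ 0 - θ), fun N hN => (hC N hN).trans ?_⟩
    obtain ⟨n, rfl⟩ : ∃ n, N = n + 1 := ⟨N - 1, by omega⟩
    have h6 : (((n + 1 : ℕ) : ℝ) + 1) = n + 2 := by push_cast; ring
    rw [h6]
    have h7 := rpow_le_mul_rpow (half_le_log n) (le_max_left θ 0)
    have h8 : 0 ≤ Real.log (n + 2) ^ θ := Real.rpow_nonneg (by linarith [half_le_log n]) _
    calc C * Real.log (n + 2) ^ θ ≤ |C| * Real.log (n + 2) ^ θ :=
          mul_le_mul_of_nonneg_right (le_abs_self C) h8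
      _ ≤ |C| * (2 ^ (max θ 0 - θ) * Real.log (n + 2) ^ max θ 0) :=
          mul_le_mul_of_nonneg_left h7 (abs_nonneg C)
      _ = _ := by ring
  have e1 : cf μ m = ∫ y, e (m * y) ∂μ := by
    unfold cf
    simp
  rw [e1]
  rcases hg with rfl | rfl
  · refine core_tail_per3 h h0 (fun m hm => ?_) m hm
    obtain ⟨θ, hθ0, hθ, C, hC⟩ := hS' m hm
    refine ⟨5 / 4 + θ / 2, by linarith, by linarith, fun η hη => ?_⟩
    have := summable_of_cesaro 3 (by norm_num) θ hθ0 hθ C η hη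
      (fun q => μ.real (dev μ (3 ^ q) 1 m η)) (fun q => measureReal_nonneg) (fun q hq =>
        dev_le_two h (3 ^ q) m (Nat.one_le_pow _ _ (by norm_num)) η hη _
          (hC (3 ^ q) (Nat.one_le_pow _ _ (by norm_num))))
    simpa using this
  · refine core_tail_per h h0 (fun m hm => ?_) m hm
    obtain ⟨θ, hθ0, hθ, C, hC⟩ := hS' m hm
    refine ⟨5 / 4 + θ / 2, by linarith, by linarith, fun η hη => ?_⟩
    have := summable_of_cesaro 2 (by norm_num) θ hθ0 hθ C η hη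
      (fun q => μ.real (dev μ 1 (2 ^ q) m η)) (fun q => measureReal_nonneg) (fun q hq =>
        dev_le_three h (2 ^ q) m Nat.one_le_two_pow η hη _ (hC (2 ^ q) Nat.one_le_two_pow))
    simpa using this

end cesaro

end Pool.Agent.Helper87.SC
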