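import Mathlib
import Pool.Agent.Helper87.SC.Core
import Pool.Agent.Helper61.DR.Single

/-!
# A single character: the Cesàro sums of its correlations are not bounded by a power `< 1 / 2` of the
logarithm
-/

set_option autoImplicit false

open MeasureTheory Finset Filter

namespace Pool.Agent.Helper87.SC

open Pool.Agent.Helper61.FR Pool.Agent.Helper61.DR

lemma cesaro_nonneg_exp {F : ℕ → ℝ} (hF : ∃ θ : ℝ, θ < 1 / 2 ∧ ∃ C : ℝ, ∀ N : ℕ, 1 ≤ N →
      F N ≤ C * Real.log (N + 1) ^ θ) :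
    ∃ θ : ℝ, 0 ≤ θ ∧ θ < 1 / 2 ∧ ∃ C : ℝ, ∀ N : ℕ, 1 ≤ N → F N ≤ C * Real.log (N + 1) ^ θ := by
  obtain ⟨θ, hθ, C, hC⟩ := hF
  refine ⟨max θ 0, le_max_right _ _, max_lt hθ (by norm_num),
    |C| * 2 ^ (max θ 0 - θ), fun N hN => (hC N hN).trans ?_⟩
  obtain ⟨n, rfl⟩ : ∃ n, N = n + 1 := ⟨N - 1, by omega⟩
  have h6 : (((n + 1 : ℕ) : ℝ) + 1) = n + 2 := by push_cast; ring
  rw [h6]
  have h7 := rpow_le_mul_rpow (half_le_log n) (le_max_left θ 0)
  have h8 : 0 ≤ Real.log (n + 2) ^ θ := Real.rpow_nonneg (by linarith [half_le_log n]) _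
  calc C * Real.log (n + 2) ^ θ ≤ |C| * Real.log (n + 2) ^ θ :=
        mul_le_mul_of_nonneg_right (le_abs_self C) h8
    _ ≤ |C| * (2 ^ (max θ 0 - θ) * Real.log (n + 2) ^ max θ 0) :=
        mul_le_mul_of_nonneg_left h7 (abs_nonneg C)
    _ = _ := by ring

theorem slow_single {μ : Measure ℝ} (h : Inv23 μ) (h0 : ∀ x, μ {x} = 0)
    (m : ℕ) (hm : 1 ≤ m) (hφ : 1 / 2 < ‖∫ y, e (m * y) ∂μ‖) (θ : ℝ) (hθ : θ < 1 / 2) (C : ℝ) :
    ∃ N : ℕ, 1 ≤ N ∧
      C * Real.log (N + 1) ^ θ < ∑ b ∈ range N, (1 - (b : ℝ) / N) * (cc μ 3 m b).re := by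
  by_contra hcon
  push Not at hcon
  obtain ⟨θ', hθ0, hθ', C', hC'⟩ := cesaro_nonneg_exp
    (F := fun N => ∑ b ∈ range N, (1 - (b : ℝ) / N) * (cc μ 3 m b).re) ⟨θ, hθ, C, hcon⟩
  set c : ℝ := ‖∫ y, e (m * y) ∂μ‖ - 1 / 2 with hc
  have hc0 : 0 < c := by rw [hc]; linarith
  refine Helper40.LPA.not_summable_dev_single h h0 m hm c hc0 (by rw [hc]; linarith)
    (γ := 5 / 4 + θ' / 2) (by linarith) ?_
  have := summable_of_cesaro 2 (by norm_num) θ' hθ0 hθ' C' (c / 4) (by positivity)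
    (fun q => μ.real (dev μ 1 (2 ^ q) m (c / 4))) (fun q => measureReal_nonneg) (fun q hq =>
      dev_le_three h (2 ^ q) m Nat.one_le_two_pow _ (by positivity) _
        (hC' (2 ^ q) Nat.one_le_two_pow))
  simpa using this

/-- Cesàro sums which are not bounded by powers `< 1 / 2` of the logarithm: the correlations are not
summable with the corresponding weights. -/
theorem not_summable_of_slow {c : ℕ → ℂ} (hs : ∀ θ : ℝ, θ < 1 / 2 → ∀ C : ℝ, ∃ N : ℕ, 1 ≤ N ∧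
      C * Real.log (N + 1) ^ θ < ∑ b ∈ range N, (1 - (b : ℝ) / N) * (c b).re)
    (θ : ℝ) (hθ : θ < 1 / 2) : ¬ Summable fun b : ℕ => ‖c b‖ / Real.log (b + 2) ^ θ := by
  intro hS
  have hS' := summable_log_mono (fun b => norm_nonneg (c b)) (le_max_left θ 0) hS
  have h1 : max θ 0 < 1 / 2 := max_lt hθ (by norm_num)
  have h2 : 0 ≤ max θ 0 := le_max_right _ _
  set T : ℝ := ∑' b : ℕ, ‖c b‖ / Real.log (b + 2) ^ max θ 0 with hT
  obtain ⟨N, hN, hlt⟩ := hs (max θ 0) h1 T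
  refine absurd hlt (not_lt.mpr ?_)
  have hlog : 0 ≤ Real.log ((N : ℝ) + 1) ^ max θ 0 :=
    Real.rpow_nonneg (Real.log_nonneg (by
      have : (0 : ℝ) ≤ N := Nat.cast_nonneg N
      linarith)) _
  calc ∑ b ∈ range N, (1 - (b : ℝ) / N) * (c b).re ≤ ∑ b ∈ range N, ‖c b‖ := cesaro_le c N hN
    _ ≤ ∑ b ∈ range N, (‖c b‖ / Real.log (b + 2) ^ max θ 0) * Real.log (N + 1) ^ max θ 0 := by
        refine sum_le_sum fun b hb => ?_
        have hb' : b + 1 ≤ N := mem_range.mp hb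
        have h3 : (0 : ℝ) < Real.log (b + 2) := by linarith [half_le_log b]
        have h4 : (0 : ℝ) < Real.log (b + 2) ^ max θ 0 := Real.rpow_pos_of_pos h3 _
        have h5 : Real.log (b + 2) ^ max θ 0 ≤ Real.log (N + 1) ^ max θ 0 := by
          refine Real.rpow_le_rpow h3.le (Real.log_le_log (by positivity) ?_) h2
          have : ((b : ℝ) + 1) ≤ N := by exact_mod_cast hb'
          linarith
        rw [div_mul_eq_mul_div, le_div_iff₀ h4]
        exact mul_le_mul_of_nonneg_left h5 (norm_nonneg _)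
    _ = (∑ b ∈ range N, ‖c b‖ / Real.log (b + 2) ^ max θ 0) * Real.log (N + 1) ^ max θ 0 := by
        rw [sum_mul]
    _ ≤ T * Real.log (N + 1) ^ max θ 0 := by
        refine mul_le_mul_of_nonneg_right ?_ hlog
        refine hS'.sum_le_tsum _ fun b _ => ?_
        exact div_nonneg (norm_nonneg _) (Real.rpow_nonneg (by linarith [half_le_log b]) _)

end Pool.Agent.Helper87.SC
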