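import Mathlib
import Pool.Agent.Helper17.Herglotz
import Pool.Agent.Helper63.FX.ExLikeOf
import Pool.Agent.Helper40.TMA.Trace
import Pool.Agent.Helper61.FR.Circle
import Pool.Agent.Helper61.DR.Diff
import Pool.Agent.Helper61.DR.Circle
import Pool.Agent.Helper61.DR.Reg
import Pool.Agent.Helper87.SC.Single

/-!
# MP_81910f_an: extreme traces with summable correlations, the proof
-/

set_option autoImplicit false
open scoped ComplexOrder InnerProductSpace
open Filter MeasureTheory Finset Helper17.FU Helper17.FUGroup Helper91.TTT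

namespace Pool.Agent.Helper87.SC.Main

/-- extreme normalised positive definite class functions -/
def IsExtremeTrace (G : Subgroup (Equiv.Perm ℚ)) (φ : G → ℂ) : Prop :=
  φ ∈ Set.extremePoints ℝ {ψ : G → ℂ | ψ 1 = 1 ∧ (∀ g h : G, ψ (h * g * h⁻¹) = ψ g) ∧
    ∀ (s : Finset G) (c : G → ℂ), 0 ≤ ∑ i ∈ s, ∑ j ∈ s, star (c j) * c i * ψ (j⁻¹ * i)}

/-- the translates by translations span a finite dimensional space -/
def CondFiniteDim (G : Subgroup (Equiv.Perm ℚ)) (φ : G → ℂ) : Prop :=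
  FiniteDimensional ℂ (Submodule.span ℂ {F : G → ℂ | ∃ n : G,
    (∃ r : ℚ, ∀ x : ℚ, (n : Equiv.Perm ℚ) x = x + r) ∧ F = fun x => φ (n * x)})

/-- the correlation `φ (t ^ (m (g ^ b - 1))) - |φ (t ^ m)| ^ 2` of `m` and `g ^ b m` -/
noncomputable def corr {G : Subgroup (Equiv.Perm ℚ)} (τ : G) (φ : G → ℂ) (g m b : ℕ) : ℂ :=
  φ (τ ^ (m * ((g : ℤ) ^ b - 1) : ℤ)) - (‖φ (τ ^ m)‖ ^ 2 : ℝ)

/-- For every `h < 1 / 2` the correlations of `m` are not summable with the weights `1 / log ^ h`,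
and their Cesàro sums are not `O((log N) ^ h)`. -/
def Slow {G : Subgroup (Equiv.Perm ℚ)} (τ : G) (φ : G → ℂ) (g m : ℕ) : Prop :=
  ∀ h : ℝ, h < 1 / 2 → (¬ Summable fun b : ℕ => ‖corr τ φ g m b‖ / Real.log (b + 2) ^ h) ∧
    ∀ C : ℝ, ∃ N : ℕ, 1 ≤ N ∧
      C * Real.log (N + 1) ^ h < ∑ b ∈ range N, (1 - (b : ℝ) / N) * (corr τ φ g m b).re

theorem main :
  ∀ (s2 s3 t : Equiv.Perm ℚ), (∀ x : ℚ, s2 x = 2 * x) → (∀ x : ℚ, s3 x = 3 * x) →
  (∀ x : ℚ, t x = x + 1) →
  ∀ (G : Subgroup (Equiv.Perm ℚ)), G = Subgroup.closure {s2, s3, t} →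
  ∀ τ : G, (τ : Equiv.Perm ℚ) = t →
  ∀ φ : G → ℂ, IsExtremeTrace G φ →
  (∀ g : ℕ, g = 2 ∨ g = 3 → List.TFAE [
    φ = Set.indicator ({1} : Set G) (fun _ => (1 : ℂ)) ∨ φ τ = 1,
    ∀ m : ℕ, 1 ≤ m → Summable fun b : ℕ => ‖corr τ φ g m b‖,
    ∀ m : ℕ, 1 ≤ m → ∃ h : ℝ, h < 1 / 2 ∧
      Summable fun b : ℕ => ‖corr τ φ g m b‖ / Real.log (b + 2) ^ h]) ∧
  (¬ φ = Set.indicator ({1} : Set G) (fun _ => (1 : ℂ)) → ¬ CondFiniteDim G φ →
    (∃ m : ℕ, 1 ≤ m ∧ Slow τ φ 2 m) ∧ (∃ m : ℕ, 1 ≤ m ∧ Slow τ φ 3 m) ∧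
    ∀ m : ℕ, 1 ≤ m → 1 / 2 < ‖φ (τ ^ m)‖ → Slow τ φ 3 m) := by
  intro s2 s3 t h2 h3 ht G hG τ hτ φ hφ
  subst hG
  have hφ' : φ ∈ Set.extremePoints ℝ (TR (GG s2 s3 t)) := hφ
  have hφT := hφ'.1
  have hφ1 : φ 1 = 1 := hφT.1
  have hφc := hφT.2.1
  have hFφ : Fact (PD φ) := ⟨hφT.2.2⟩
  obtain ⟨σ2, σ3, τ', hσ2, hσ3, hτ', e2, e3, ecomm, hgen⟩ := relations h2 h3 ht
  have hττ' : τ' = τ := Subtype.ext (by rw [hτ', hτ])
  rw [hττ'] at e2 e3 hgen
  -- the measure
  obtain ⟨μ, hμp, hμ⟩ := Helper17.Herglotz.herglotz (rf_pdz (φ := φ) τ 1)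
    (by unfold rf; simp [hφ1])
  have hμ' : ∀ n : ℤ, ∫ x, (fourier n x : ℂ) ∂μ = φ (τ ^ n) := by
    intro n
    rw [hμ n]; unfold rf; rw [one_mul]
  have hinv : ∀ N : ℕ, (∀ j : ℤ, φ (τ ^ ((N : ℤ) * j)) = φ (τ ^ j)) →
      MeasurePreserving (Helper17.TranslM.T N) μ μ := by
    intro N hN
    refine ⟨Helper17.TranslM.measurable_T N, ?_⟩
    have hp : IsProbabilityMeasure (μ.map (Helper17.TranslM.T N)) :=
      Measure.isProbabilityMeasure_map (Helper17.TranslM.measurable_T N).aemeasurable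
    apply Helper17.TranslM.eq_of_fourier
    intro m
    rw [integral_map (Helper17.TranslM.measurable_T N).aemeasurable
      (fourier m).continuous.aestronglyMeasurable, hμ' m, ← hN m, ← hμ']
    refine integral_congr_ae (Eventually.of_forall fun x => ?_)
    simp only [Helper17.TranslM.T, fourier_apply]
    congr 1
    congr 1
    rw [← natCast_zsmul, smul_smul, mul_comm]
  have hm2 : MeasurePreserving (fun x : AddCircle (1 : ℝ) => (2 : ℕ) • x) μ μ := by
    apply hinv 2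
    intro j
    have := Helper17.FU.conj_pow e2 j
    rw [show ((2 : ℕ) : ℤ) * j = 2 * j by norm_num]
    rw [← this, hφc]
  have hm3 : MeasurePreserving (fun x : AddCircle (1 : ℝ) => (3 : ℕ) • x) μ μ := by
    apply hinv 3
    intro j
    have := conj_pow3 e3 j
    rw [show ((3 : ℕ) : ℤ) * j = 3 * j by norm_num]
    rw [← this, hφc]
  obtain ⟨ρ, hρ, hρμ, hat⟩ := Pool.Agent.Helper61.FR.exists_inv23 μ hm2 hm3
  have hcf : ∀ n : ℤ, Pool.Agent.Helper61.FR.cf ρ n = φ (τ ^ n) := fun n => by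
    rw [← Pool.Agent.Helper61.FR.integral_fourier_eq hρμ, hμ']
  have hcc : ∀ g m b : ℕ, Pool.Agent.Helper61.DR.cc ρ g m b = corr τ φ g m b := by
    intro g m b
    unfold Pool.Agent.Helper61.DR.cc corr
    rw [hcf, hcf, zpow_natCast]
  have hmean : ∀ m : ℕ, ∫ x, Pool.Agent.Helper61.FR.e (m * x) ∂ρ = φ (τ ^ m) := by
    intro m
    rw [← zpow_natCast, ← hcf]
    unfold Pool.Agent.Helper61.FR.cf
    simp
  -- vanishing of the coefficients characterises `Δ`
  have hne : ¬ φ = Set.indicator ({1} : Set (GG s2 s3 t)) (fun _ => (1 : ℂ)) →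
      ¬ CondFiniteDim (GG s2 s3 t) φ → (∀ x, ρ {x} = 0) ∧
      ¬ ∀ m : ℕ, 1 ≤ m → Pool.Agent.Helper61.FR.cf ρ m = 0 := by
    intro hΔ hfd
    have hex := Helper63.FX.exlike_of_exotic h2 h3 ht hτ hφ' hΔ hfd
    obtain ⟨ν, hνp, hν, -, -, hν0⟩ := hex.rep
    have hνμ : ν = μ := by
      apply Helper17.TranslM.eq_of_fourier
      intro m
      rw [hμ' m]
      exact hν m
    rw [hνμ] at hν0
    refine ⟨hat hν0, fun hz => ?_⟩
    obtain ⟨n, hn, hφn⟩ := hex.ne
    apply hφn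
    show φ (τ ^ n) = 0
    rw [← hcf n]
    rcases lt_or_gt_of_ne hn with h | h
    · have h5 := hz (-n).toNat (by omega)
      rw [show (((-n).toNat : ℕ) : ℤ) = -n by omega, Pool.Agent.Helper61.FR.cf_neg,
        star_eq_zero] at h5
      exact h5
    · have h5 := hz n.toNat (by omega)
      rwa [show ((n.toNat : ℕ) : ℤ) = n by omega] at h5
  -- a counterexample has a slow character
  have hslow : ¬ φ = Set.indicator ({1} : Set (GG s2 s3 t)) (fun _ => (1 : ℂ)) →
      ¬ CondFiniteDim (GG s2 s3 t) φ → ∀ g : ℕ, g = 2 ∨ g = 3 →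
      ∃ m : ℕ, 1 ≤ m ∧ Slow τ φ g m := by
    intro hΔ hfd g hg
    obtain ⟨h0, hz⟩ := hne hΔ hfd
    have hex : ∃ m : ℕ, 1 ≤ m ∧ ∀ θ : ℝ, θ < 1 / 2 → ∀ C : ℝ, ∃ N : ℕ, 1 ≤ N ∧
        C * Real.log (N + 1) ^ θ <
          ∑ b ∈ range N, (1 - (b : ℝ) / N) * (Pool.Agent.Helper61.DR.cc ρ g m b).re := by
      by_contra hcon
      push Not at hcon
      exact hz (Pool.Agent.Helper87.SC.cf_eq_zero_of_cesaro_per hρ h0 g hg hcon)
    obtain ⟨m, hm, hs⟩ := hex
    simp only [hcc] at hs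
    exact ⟨m, hm, fun h hh => ⟨Pool.Agent.Helper87.SC.not_summable_of_slow hs h hh, hs h hh⟩⟩
  -- the trace `Δ`
  have hΔτ : φ = Set.indicator ({1} : Set (GG s2 s3 t)) (fun _ => (1 : ℂ)) →
      ∀ n : ℤ, n ≠ 0 → φ (τ ^ n) = 0 := by
    intro hΔ n hn
    rw [hΔ, Set.indicator_of_notMem]
    intro h
    have h5 : (τ : Equiv.Perm ℚ) ^ n = 1 := by
      rw [← Subgroup.coe_zpow, show τ ^ n = 1 from h, Subgroup.coe_one]
    have h6 := congrArg (fun f : Equiv.Perm ℚ => f 0) h5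
    simp only [hτ] at h6
    rw [t_zpow ht] at h6
    simp only [Equiv.Perm.coe_one, id] at h6
    apply hn
    have : (n : ℚ) = 0 := by linarith
    exact_mod_cast this
  refine ⟨fun g hg => ?_, fun hΔ hfd => ⟨hslow hΔ hfd 2 (Or.inl rfl), hslow hΔ hfd 3 (Or.inr rfl),
    fun m hm hφm h hh => ?_⟩⟩
  · have hΔcorr : φ = Set.indicator ({1} : Set (GG s2 s3 t)) (fun _ => (1 : ℂ)) →
        ∀ m : ℕ, 1 ≤ m → ∀ b : ℕ, corr τ φ g m b = if b = 0 then 1 else 0 := by
      intro hΔ m hm b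
      unfold corr
      have h5 : φ (τ ^ m) = 0 := by
        have := hΔτ hΔ m (by omega)
        rwa [zpow_natCast] at this
      rw [h5]
      by_cases hb : b = 0
      · subst hb
        simp [hφ1]
      · have h6 : (m * ((g : ℤ) ^ b - 1) : ℤ) ≠ 0 := by
          have h7 : (1 : ℤ) < (g : ℤ) ^ b := one_lt_pow₀ (by omega) hb
          have h8 : (m : ℤ) ≠ 0 := by omega
          exact mul_ne_zero h8 (by omega)
        rw [hΔτ hΔ _ h6]
        simp [hb]
    tfae_have 1 → 2 := by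
      rintro (hΔ | h1) m hm
      · refine summable_of_ne_finset_zero (s := {0}) fun b hb => ?_
        rw [hΔcorr hΔ m hm b, if_neg (by simpa using hb), norm_zero]
      · have hu : ‖∫ x, (fourier 1 x : ℂ) ∂μ‖ = 1 := by
          rw [hμ', zpow_one, h1, norm_one]
        have hall : ∀ n : ℤ, φ (τ ^ n) = 1 := by
          intro n
          rw [← hμ', Pool.Agent.Helper61.DR.coeff_pow hu n, hμ', zpow_one, h1, one_zpow]
        have hz : (fun b : ℕ => ‖corr τ φ g m b‖) = fun _ => 0 := by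
          funext b
          unfold corr
          have h6 : φ (τ ^ m) = 1 := by
            have := hall m
            rwa [zpow_natCast] at this
          rw [hall, h6]
          simp
        rw [hz]
        exact summable_zero
    tfae_have 2 → 3 := by
      intro hS m hm
      refine ⟨0, by norm_num, ?_⟩
      simp only [Real.rpow_zero, div_one]
      exact hS m hm
    tfae_have 3 → 1 := by
      intro hS
      by_cases hfd : CondFiniteDim (GG s2 s3 t) φ
      · right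
        obtain ⟨θ, hθ, hS1⟩ := hS 1 le_rfl
        obtain ⟨d, c, hc, hrec⟩ := Pool.Agent.Helper40.TMA.exists_recurrence hτ ht hfd
        obtain ⟨Z, hZ, hZ'⟩ := Pool.Agent.Helper40.TMA.finite_support μ d c hc (fun m => by
          rw [← hrec m]
          refine Finset.sum_congr rfl fun j _ => ?_
          congr 1
          exact hμ' _)
        have hmg : MeasurePreserving (fun x : AddCircle (1 : ℝ) => g • x) μ μ := by
          rcases hg with rfl | rfl
          · exact hm2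
          · exact hm3
        obtain ⟨p, hp, hper⟩ := Pool.Agent.Helper61.DR.coeff_period g hmg Z hZ hZ'
        have hu : ‖∫ x, (fourier 1 x : ℂ) ∂μ‖ = 1 := by
          by_contra hne1
          have hle : ‖∫ x, (fourier 1 x : ℂ) ∂μ‖ ≤ 1 := by
            rw [hμ', ← hcf]
            exact Pool.Agent.Helper61.DR.norm_cf_le hρ 1
          have hlt : ‖φ τ‖ < 1 := by
            have := lt_of_le_of_ne hle hne1
            rwa [hμ', zpow_one] at this
          refine Pool.Agent.Helper61.DR.not_summable_log (max θ (1 / 4))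
            (lt_max_of_lt_right (by norm_num)) (max_le (by linarith) (by norm_num)) p hp
            (1 - ‖φ τ‖ ^ 2) (by nlinarith [norm_nonneg (φ τ)]) (fun b => ‖corr τ φ g 1 b‖)
            (fun b => norm_nonneg _) (fun j => ?_)
            (Pool.Agent.Helper61.DR.summable_log_mono (fun b => norm_nonneg _) (le_max_left _ _)
              hS1)
          have h5 := hper j
          rw [hμ'] at h5
          have h6 : corr τ φ g 1 (p * j) = ((1 - ‖φ τ‖ ^ 2 : ℝ) : ℂ) := by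
            unfold corr
            rw [Nat.cast_one, one_mul, h5, pow_one]
            push_cast
            rfl
          simp only [h6, Complex.norm_real]
          exact le_abs_self _
        have h7 := Pool.Agent.Helper61.DR.coeff_eq_one hm2 hu
        rwa [hμ', zpow_one] at h7
      · left
        by_contra hΔ
        obtain ⟨m, hm, hs⟩ := hslow hΔ hfd g hg
        obtain ⟨θ, hθ, hSm⟩ := hS m hm
        exact (hs θ hθ).1 hSm
    tfae_finish
  · obtain ⟨h0, -⟩ := hne hΔ hfd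
    have hφm' : 1 / 2 < ‖∫ y, Pool.Agent.Helper61.FR.e (m * y) ∂ρ‖ := by
      rw [hmean]
      exact hφm
    have hs : ∀ θ : ℝ, θ < 1 / 2 → ∀ C : ℝ, ∃ N : ℕ, 1 ≤ N ∧ C * Real.log (N + 1) ^ θ <
        ∑ b ∈ range N, (1 - (b : ℝ) / N) * (corr τ φ 3 m b).re := by
      intro θ hθ C
      have := Pool.Agent.Helper87.SC.slow_single hρ h0 m hm hφm' θ hθ C
      simpa only [hcc] using this
    exact ⟨Pool.Agent.Helper87.SC.not_summable_of_slow hs h hh, hs h hh⟩

end Pool.Agent.Helper87.SC.Main
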